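import Mathlib

/-!
# MP_ee7763_co, Q1: Orlin's conjecture holds for perfect graphs

Every perfect equistable graph is a general partition graph. The proof uses the weighted version of
the perfect graph theorem (replication lemma) for the weights `sum of all maximal stable sets + the
two ends of an edge`.
-/

set_option autoImplicit false

namespace Pool.Agent.Results.MP_ee7763_co.PerfectOrlin

open Finset

/-- `S` is a maximal stable set of `G`. -/
def IsMaxStable {V : Type} (G : SimpleGraph V) (S : Finset V) : Prop :=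
  Maximal (fun T : Finset V => G.IsIndepSet (T : Set V)) S

/-- `G` is equistable: for some positive weight function the maximal stable sets are exactly the
vertex sets of weight `1`. -/
def IsEquistable {V : Type} (G : SimpleGraph V) : Prop :=
  ∃ φ : V → ℝ, (∀ v, 0 < φ v) ∧ ∀ S : Finset V, IsMaxStable G S ↔ ∑ v ∈ S, φ v = 1

/-- `G` is a general partition graph: there are nonempty subsets `W x` of a set `U` such that
distinct vertices `x`, `y` are adjacent iff `W x` meets `W y`, and for every maximal stable set `S`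
the sets `W x` with `x` in `S` partition `U`. -/
def IsGeneralPartition {V : Type} (G : SimpleGraph V) : Prop :=
  ∃ (U : Type) (W : V → Set U), (∀ x, (W x).Nonempty) ∧
    (∀ x y, x ≠ y → (G.Adj x y ↔ (W x ∩ W y).Nonempty)) ∧
    ∀ S : Finset V, IsMaxStable G S → ∀ u : U, ∃! x, x ∈ S ∧ u ∈ W x

/-- `G` is perfect: for every induced subgraph the chromatic number equals the clique number. -/
def IsPerfect {V : Type} (G : SimpleGraph V) : Prop :=
  ∀ A : Set V, (G.induce A).chromaticNumber = ((G.induce A).cliqueNum : ℕ∞)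

section
variable {V : Type} [Fintype V] [DecidableEq V] {G : SimpleGraph V}

/-- a clique and a stable set share at most one vertex -/
lemma inter_le_one {K S : Finset V} (hK : G.IsClique (K : Set V)) (hS : G.IsIndepSet (S : Set V)) :
    ∑ v ∈ K, (if v ∈ S then 1 else 0 : ℕ) ≤ 1 := by
  rw [← card_filter]
  apply card_le_one.2
  intro a ha b hb
  rw [mem_filter] at ha hb
  by_contra hab
  exact hS ha.2 hb.2 hab (hK ha.1 hb.1 hab)

lemma double {m : ℕ} (K : Finset V) (S : Fin m → Finset V) :
    ∑ v ∈ K, ∑ j, (if v ∈ S j then 1 else 0 : ℕ) = ∑ j, ∑ v ∈ K, (if v ∈ S j then 1 else 0 : ℕ) :=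
  sum_comm

/-- colouring of an induced subgraph of a perfect graph by stable sets -/
lemma colour (hG : IsPerfect G) (A : Finset V) (m : ℕ)
    (hm : ∀ K : Finset V, K ⊆ A → G.IsClique (K : Set V) → K.card ≤ m) :
    ∃ S : Fin m → Finset V, (∀ j, G.IsIndepSet (S j : Set V)) ∧
      ∀ v, ∑ j, (if v ∈ S j then 1 else 0 : ℕ) = if v ∈ A then 1 else 0 := by
  classical
  have h1 : (G.induce (A : Set V)).cliqueNum ≤ m := by
    obtain ⟨s, hs⟩ := (G.induce (A : Set V)).exists_isNClique_cliqueNum
    rw [← hs.card_eq]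
    have h2 : (s.map (Function.Embedding.subtype (· ∈ (A : Set V)))).card ≤ m := by
      apply hm
      · intro x hx
        rw [mem_map] at hx
        obtain ⟨y, _, rfl⟩ := hx
        exact y.2
      · intro a ha b hb hab
        rw [mem_coe, mem_map] at ha hb
        obtain ⟨x, hx, rfl⟩ := ha
        obtain ⟨y, hy, rfl⟩ := hb
        have hxy : x ≠ y := fun h => hab (by rw [h])
        exact hs.isClique hx hy hxy
    rwa [card_map] at h2
  have h2 : (G.induce (A : Set V)).Colorable m := by
    rw [← SimpleGraph.chromaticNumber_le_iff_colorable, hG]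
    exact_mod_cast h1
  obtain ⟨c⟩ := h2
  refine ⟨fun j => univ.filter (fun v => ∃ h : v ∈ (A : Set V), c ⟨v, h⟩ = j), ?_, ?_⟩
  · intro j a ha b hb hab hadj
    rw [mem_coe, mem_filter] at ha hb
    obtain ⟨_, h3, h4⟩ := ha
    obtain ⟨_, h5, h6⟩ := hb
    have : (G.induce (A : Set V)).Adj ⟨a, h3⟩ ⟨b, h5⟩ := hadj
    exact c.valid this (h4.trans h6.symm)
  · intro v
    by_cases hv : v ∈ A
    · rw [if_pos hv]
      have : ∀ j : Fin m, (if v ∈ univ.filter (fun v => ∃ h : v ∈ (A : Set V), c ⟨v, h⟩ = j) then
          1 else 0 : ℕ) = if c ⟨v, hv⟩ = j then 1 else 0 := by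
        intro j
        congr 1
        rw [mem_filter]
        apply propext
        constructor
        · rintro ⟨_, h, h'⟩
          exact h'
        · intro h
          exact ⟨mem_univ _, hv, h⟩
      rw [sum_congr rfl (fun j _ => this j)]
      simp
    · rw [if_neg hv]
      apply sum_eq_zero
      intro j _
      rw [if_neg]
      rw [mem_filter]
      rintro ⟨_, h, _⟩
      exact hv h

/-- weighted version: a perfect graph has `m` stable sets covering every vertex `v` exactly `w v`
times as soon as every clique has weight at most `m` -/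
lemma cover (hG : IsPerfect G) : ∀ (n : ℕ) (w : V → ℕ) (m : ℕ), ∑ v, w v = n →
    (∀ K : Finset V, G.IsClique (K : Set V) → ∑ v ∈ K, w v ≤ m) →
    ∃ S : Fin m → Finset V, (∀ j, G.IsIndepSet (S j : Set V)) ∧
      ∀ v, ∑ j, (if v ∈ S j then 1 else 0 : ℕ) = w v := by
  intro n
  induction n using Nat.strong_induction_on with
  | _ n ih =>
    intro w m hn hw
    by_cases hsmall : ∀ v, w v ≤ 1
    · obtain ⟨S, hS, hcov⟩ := colour hG (univ.filter (fun v => w v = 1)) m (by
        intro K hKA hK
        refine le_trans (le_of_eq ?_) (hw K hK)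
        rw [card_eq_sum_ones]
        apply sum_congr rfl
        intro v hv
        have := hKA hv
        rw [mem_filter] at this
        exact this.2.symm)
      refine ⟨S, hS, fun v => ?_⟩
      rw [hcov v]
      have := hsmall v
      by_cases h1 : w v = 1
      · rw [if_pos (by simp [h1]), h1]
      · rw [if_neg (by simp [h1])]
        omega
    · push Not at hsmall
      obtain ⟨x, hx⟩ := hsmall
      -- lower the weight of `x` by one
      obtain ⟨S, hS, hcov⟩ := ih (n - 1) (by
          have : w x ≤ ∑ v, w v := single_le_sum (fun _ _ => Nat.zero_le _) (mem_univ x)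
          omega) (fun v => if v = x then w v - 1 else w v) m (by
          rw [← hn]
          have h1 : ∑ v, w v = w x + ∑ v ∈ univ.erase x, w v := (add_sum_erase _ _ (mem_univ x)).symm
          have h2 : ∑ v, (if v = x then w v - 1 else w v) =
              (w x - 1) + ∑ v ∈ univ.erase x, w v := by
            rw [← add_sum_erase _ _ (mem_univ x), if_pos rfl]
            congr 1
            apply sum_congr rfl
            intro v hv
            rw [if_neg (ne_of_mem_erase hv)]
          rw [h1, h2]
          omega) (by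
          intro K hK
          refine le_trans (sum_le_sum (fun v _ => ?_)) (hw K hK)
          split <;> omega)
      -- a stable set of the cover containing `x`
      obtain ⟨j0, hj0⟩ : ∃ j, x ∈ S j := by
        by_contra hcon
        push Not at hcon
        have := hcov x
        rw [sum_eq_zero (fun j _ => by rw [if_neg (hcon j)]), if_pos rfl] at this
        omega
      obtain ⟨X, hX⟩ : ∃ X, X = S j0 := ⟨_, rfl⟩
      have hXind : G.IsIndepSet (X : Set V) := hX ▸ hS j0
      have hxX : x ∈ X := hX ▸ hj0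
      have hm1 : 1 ≤ m := by
        have := hw {x} (by simp)
        rw [sum_singleton] at this
        omega
      obtain ⟨m', rfl⟩ : ∃ m', m = m' + 1 := ⟨m - 1, by omega⟩
      have hwX : ∀ v ∈ X, v ≠ x → 1 ≤ w v := by
        intro v hv hvx
        have h1 := hcov v
        rw [if_neg hvx] at h1
        rw [← h1]
        have : (if v ∈ S j0 then 1 else 0 : ℕ) ≤ ∑ j, (if v ∈ S j then 1 else 0 : ℕ) :=
          single_le_sum (f := fun j => (if v ∈ S j then 1 else 0 : ℕ))
            (fun _ _ => Nat.zero_le _) (mem_univ j0)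
        rwa [if_pos (hX ▸ hv)] at this
      obtain ⟨S2, hS2, hcov2⟩ := ih (∑ v, (w v - if v ∈ X then 1 else 0)) (by
          rw [← hn]
          apply sum_lt_sum (fun v _ => Nat.sub_le _ _) ⟨x, mem_univ x, ?_⟩
          rw [if_pos hxX]
          omega) (fun v => w v - if v ∈ X then 1 else 0) m' rfl (by
          intro K hK
          -- weight of `K`
          by_cases hmeet : ∃ v ∈ K, v ∈ X
          · obtain ⟨v, hvK, hvX⟩ := hmeet
            have h1 : ∑ v ∈ K, (w v - if v ∈ X then 1 else 0) < ∑ v ∈ K, w v := by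
              apply sum_lt_sum (fun v _ => Nat.sub_le _ _) ⟨v, hvK, ?_⟩
              rw [if_pos hvX]
              have : 1 ≤ w v := by
                by_cases hvx : v = x
                · rw [hvx]
                  omega
                · exact hwX v hvX hvx
              omega
            have h2 := hw K hK
            omega
          · push Not at hmeet
            have h1 : ∑ v ∈ K, (w v - if v ∈ X then 1 else 0) =
                ∑ v ∈ K, (if v = x then w v - 1 else w v) := by
              apply sum_congr rfl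
              intro v hv
              have hvx : v ≠ x := by
                rintro rfl
                exact hmeet v hv hxX
              rw [if_neg (hmeet v hv), if_neg hvx, Nat.sub_zero]
            rw [h1, ← sum_congr rfl (fun v _ => hcov v), double]
            have h2 : ∑ j, ∑ v ∈ K, (if v ∈ S j then 1 else 0 : ℕ) < ∑ _j : Fin (m' + 1), 1 := by
              apply sum_lt_sum (fun j _ => inter_le_one hK (hS j)) ⟨j0, mem_univ _, ?_⟩
              rw [sum_eq_zero (fun v hv => by rw [if_neg (fun h : v ∈ S j0 => hmeet v hv (hX ▸ h))])]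
              exact Nat.one_pos
            simp only [sum_const, card_univ, Fintype.card_fin, smul_eq_mul, mul_one] at h2
            omega)
      refine ⟨Fin.cons X S2, ?_, ?_⟩
      · intro j
        refine Fin.cases ?_ (fun i => ?_) j
        · simpa using hXind
        · simpa using hS2 i
      · intro v
        rw [Fin.sum_univ_succ]
        simp only [Fin.cons_zero, Fin.cons_succ]
        rw [hcov2 v]
        by_cases hv : v ∈ X
        · simp only [hv, if_true]
          have : 1 ≤ w v := by
            by_cases hvx : v = x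
            · rw [hvx]
              omega
            · exact hwX v hv hvx
          omega
        · simp only [hv, if_false]
          omega

/-- every stable set extends to a maximal one -/
lemma extend {S : Finset V} (hS : G.IsIndepSet (S : Set V)) :
    ∃ T, S ⊆ T ∧ IsMaxStable G T := by
  obtain ⟨T, hT, hmax⟩ := Finite.exists_le_maximal (p := fun T : Finset V =>
    G.IsIndepSet (T : Set V)) hS
  exact ⟨T, hT, hmax⟩

/-- `K` is a strong clique: a clique meeting all maximal stable sets -/
def Strong (G : SimpleGraph V) (K : Finset V) : Prop :=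
  G.IsClique (K : Set V) ∧ ∀ S, IsMaxStable G S → ∃ v ∈ K, v ∈ S

/-- the number of members of `M` containing `v` -/
def deg (M : Finset (Finset V)) (v : V) : ℕ := ∑ S ∈ M, if v ∈ S then 1 else 0

lemma deg_clique {M : Finset (Finset V)} (hM : ∀ S, S ∈ M ↔ IsMaxStable G S) {K : Finset V}
    (hK : G.IsClique (K : Set V)) : ∑ v ∈ K, deg M v ≤ M.card := by
  unfold deg
  rw [sum_comm, card_eq_sum_ones]
  exact sum_le_sum (fun S hS => inter_le_one hK ((hM S).1 hS).prop)

lemma deg_strong {M : Finset (Finset V)} (hM : ∀ S, S ∈ M ↔ IsMaxStable G S) {K : Finset V}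
    (hK : Strong G K) : ∑ v ∈ K, deg M v = M.card := by
  apply le_antisymm (deg_clique hM hK.1)
  unfold deg
  rw [sum_comm, card_eq_sum_ones]
  apply sum_le_sum
  intro S hS
  obtain ⟨v, hvK, hvS⟩ := hK.2 S ((hM S).1 hS)
  have : (if v ∈ S then 1 else 0 : ℕ) ≤ ∑ v ∈ K, (if v ∈ S then 1 else 0 : ℕ) :=
    single_le_sum (f := fun v => (if v ∈ S then 1 else 0 : ℕ)) (fun _ _ => Nat.zero_le _) hvK
  rwa [if_pos hvS] at this

lemma deg_weak {M : Finset (Finset V)} (hM : ∀ S, S ∈ M ↔ IsMaxStable G S) {K : Finset V}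
    (hK : G.IsClique (K : Set V)) (hns : ¬ Strong G K) : ∑ v ∈ K, deg M v < M.card := by
  have : ∃ S, IsMaxStable G S ∧ ∀ v ∈ K, v ∉ S := by
    by_contra hcon
    apply hns
    refine ⟨hK, fun S hS => ?_⟩
    by_contra h2
    push Not at h2
    exact hcon ⟨S, hS, h2⟩
  obtain ⟨S0, hS0, hK0⟩ := this
  unfold deg
  rw [sum_comm, card_eq_sum_ones]
  apply sum_lt_sum (fun S hS => inter_le_one hK ((hM S).1 hS).prop) ⟨S0, (hM S0).2 hS0, ?_⟩
  rw [sum_eq_zero (fun v hv => by rw [if_neg (hK0 v hv)])]
  exact Nat.one_pos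

lemma weight_swap {ι : Type} (s : Finset ι) (S : ι → Finset V) (φ : V → ℝ) :
    ∑ j ∈ s, ∑ v ∈ S j, φ v = ∑ v, ((∑ j ∈ s, if v ∈ S j then 1 else 0 : ℕ) : ℝ) * φ v := by
  have h : ∀ j, ∑ v ∈ S j, φ v = ∑ v, (if v ∈ S j then 1 else 0 : ℝ) * φ v := by
    intro j
    simp only [ite_mul, one_mul, zero_mul]
    rw [← sum_filter]
    congr 1
    ext v
    simp
  rw [sum_congr rfl (fun j _ => h j), sum_comm]
  apply sum_congr rfl
  intro v _
  rw [← sum_mul]
  push_cast
  rfl

/-- in a perfect equistable graph every vertex is in a strong clique -/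
lemma vertex_strong (hG : IsPerfect G) {φ : V → ℝ} (hpos : ∀ v, 0 < φ v)
    (hφ : ∀ S : Finset V, IsMaxStable G S ↔ ∑ v ∈ S, φ v = 1) (x : V) :
    ∃ K, Strong G K ∧ x ∈ K := by
  classical
  by_contra hcon
  push Not at hcon
  obtain ⟨M, hM⟩ : ∃ M : Finset (Finset V), ∀ S, S ∈ M ↔ IsMaxStable G S :=
    ⟨univ.filter (fun S => IsMaxStable G S), by simp⟩
  obtain ⟨S, hS, hcov⟩ := cover hG _ (fun v => deg M v + if v = x then 1 else 0) M.card rfl (by
    intro K hK
    rw [sum_add_distrib, sum_ite_eq']
    by_cases hst : Strong G K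
    · rw [if_neg (hcon K hst), add_zero]
      exact deg_clique hM hK
    · have := deg_weak hM hK hst
      split <;> omega)
  have h1 : ∑ j, ∑ v ∈ S j, φ v ≤ ∑ _j : Fin M.card, (1 : ℝ) := by
    apply sum_le_sum
    intro j _
    obtain ⟨T, hST, hT⟩ := extend (hS j)
    rw [← (hφ T).1 hT]
    exact sum_le_sum_of_subset_of_nonneg hST (fun v _ _ => (hpos v).le)
  rw [weight_swap univ S φ, sum_congr rfl (fun v _ => by rw [hcov v])] at h1
  have h2 : ∑ S ∈ M, ∑ v ∈ S, φ v = M.card := by
    rw [sum_congr rfl (fun S hS => (hφ S).1 ((hM S).1 hS))]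
    simp
  rw [weight_swap M (fun S => S) φ] at h2
  have h3 : ∑ v, ((deg M v + if v = x then 1 else 0 : ℕ) : ℝ) * φ v =
      ∑ v, ((∑ S ∈ M, if v ∈ S then 1 else 0 : ℕ) : ℝ) * φ v + φ x := by
    have : ∀ v, ((deg M v + if v = x then 1 else 0 : ℕ) : ℝ) * φ v =
        ((∑ S ∈ M, if v ∈ S then 1 else 0 : ℕ) : ℝ) * φ v + if v = x then φ v else 0 := by
      intro v
      rw [Nat.cast_add, add_mul]
      congr 1
      by_cases h : v = x <;> simp [h]
    rw [sum_congr rfl (fun v _ => this v), sum_add_distrib]
    simp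
  rw [h3, h2] at h1
  simp only [sum_const, card_univ, Fintype.card_fin, nsmul_eq_mul, mul_one] at h1
  have := hpos x
  linarith

/-- in a perfect equistable graph every edge is in a strong clique -/
lemma edge_strong (hG : IsPerfect G) {φ : V → ℝ} (hpos : ∀ v, 0 < φ v)
    (hφ : ∀ S : Finset V, IsMaxStable G S ↔ ∑ v ∈ S, φ v = 1) {x y : V} (hxy : G.Adj x y) :
    ∃ K, Strong G K ∧ x ∈ K ∧ y ∈ K := by
  classical
  by_contra hcon
  push Not at hcon
  obtain ⟨M, hM⟩ : ∃ M : Finset (Finset V), ∀ S, S ∈ M ↔ IsMaxStable G S :=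
    ⟨univ.filter (fun S => IsMaxStable G S), by simp⟩
  obtain ⟨S, hS, hcov⟩ := cover hG _
    (fun v => deg M v + ((if v = x then 1 else 0) + if v = y then 1 else 0)) (M.card + 1) rfl (by
    intro K hK
    rw [sum_add_distrib, sum_add_distrib, sum_ite_eq', sum_ite_eq']
    by_cases hst : Strong G K
    · have h1 := deg_clique hM hK
      by_cases hx : x ∈ K
      · rw [if_pos hx, if_neg (hcon K hst hx)]
        omega
      · rw [if_neg hx]
        split <;> omega
    · have := deg_weak hM hK hst
      split <;> split <;> omega)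
  -- extend the stable sets
  choose T hST hT using fun j => extend (hS j)
  -- the excess
  have hge : ∀ v, deg M v + ((if v = x then 1 else 0) + if v = y then 1 else 0) ≤
      ∑ j, (if v ∈ T j then 1 else 0 : ℕ) := by
    intro v
    rw [← hcov v]
    apply sum_le_sum
    intro j _
    by_cases hv : v ∈ S j
    · rw [if_pos hv, if_pos (hST j hv)]
    · rw [if_neg hv]
      exact Nat.zero_le _
  have hle : ∀ v, ∑ j, (if v ∈ T j then 1 else 0 : ℕ) ≤ deg M v + 1 := by
    intro v
    obtain ⟨K, hK, hvK⟩ := vertex_strong hG hpos hφ v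
    have h1 : ∑ u ∈ K, ∑ j, (if u ∈ T j then 1 else 0 : ℕ) ≤ M.card + 1 := by
      rw [sum_comm]
      refine le_trans (sum_le_sum (fun j _ => inter_le_one hK.1 (hT j).prop)) ?_
      simp
    have h2 := deg_strong hM hK
    rw [← add_sum_erase _ _ hvK] at h1 h2
    have h3 : ∑ u ∈ K.erase v, deg M u ≤
        ∑ u ∈ K.erase v, ∑ j, (if u ∈ T j then 1 else 0 : ℕ) :=
      sum_le_sum (fun u _ => le_trans (Nat.le_add_right _ _) (hge u))
    omega
  obtain ⟨Z, hZ⟩ : ∃ Z : Finset V, Z = univ.filter (fun v =>
    ∑ j, (if v ∈ T j then 1 else 0 : ℕ) = deg M v + 1) := ⟨_, rfl⟩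
  have hz : ∀ v, ((∑ j, (if v ∈ T j then 1 else 0 : ℕ) : ℕ) : ℝ) =
      (deg M v : ℝ) + if v ∈ Z then 1 else 0 := by
    intro v
    have h1 := hge v
    have h2 := hle v
    by_cases hv : v ∈ Z
    · rw [if_pos hv]
      rw [hZ, mem_filter] at hv
      rw [hv.2]
      push_cast
      rfl
    · rw [if_neg hv, add_zero]
      rw [hZ, mem_filter] at hv
      have h3 : ∑ j, (if v ∈ T j then 1 else 0 : ℕ) ≠ deg M v + 1 := fun h => hv ⟨mem_univ _, h⟩
      have h4 : ∑ j, (if v ∈ T j then 1 else 0 : ℕ) = deg M v := by omega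
      rw [h4]
  have hZ1 : ∑ v ∈ Z, φ v = 1 := by
    have h1 : ∑ j, ∑ v ∈ T j, φ v = M.card + 1 := by
      rw [sum_congr rfl (fun j _ => (hφ (T j)).1 (hT j))]
      simp
    rw [weight_swap univ T φ, sum_congr rfl (fun v _ => by rw [hz v, add_mul]),
      sum_add_distrib] at h1
    have h2 : ∑ S ∈ M, ∑ v ∈ S, φ v = M.card := by
      rw [sum_congr rfl (fun S hS => (hφ S).1 ((hM S).1 hS))]
      simp
    rw [weight_swap M (fun S => S) φ] at h2
    have h3 : ∑ v, (if v ∈ Z then 1 else 0 : ℝ) * φ v = ∑ v ∈ Z, φ v := by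
      simp only [ite_mul, one_mul, zero_mul]
      rw [← sum_filter]
      congr 1
      ext v
      simp
    rw [h3] at h1
    have h4 : ∑ v, (deg M v : ℝ) * φ v = M.card := h2
    rw [h4] at h1
    linarith
  have hZs := (hφ Z).2 hZ1
  have hx : x ∈ Z := by
    rw [hZ, mem_filter]
    refine ⟨mem_univ _, le_antisymm (hle x) ?_⟩
    have := hge x
    rw [if_pos rfl] at this
    omega
  have hy : y ∈ Z := by
    rw [hZ, mem_filter]
    refine ⟨mem_univ _, le_antisymm (hle y) ?_⟩
    have := hge y
    rw [if_pos (rfl : y = y)] at this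
    omega
  exact hZs.prop hx hy hxy.ne hxy

end

/-- Orlin's conjecture holds for perfect graphs: every perfect equistable graph is a general
partition graph. -/
theorem result : ∀ (V : Type) [Fintype V] (G : SimpleGraph V), IsPerfect G → IsEquistable G →
    IsGeneralPartition G := by
  intro V _ G hG hE
  classical
  obtain ⟨φ, hpos, hφ⟩ := hE
  refine ⟨{K : Finset V // Strong G K}, fun x => {K | x ∈ K.1}, ?_, ?_, ?_⟩
  · intro x
    obtain ⟨K, hK, hx⟩ := vertex_strong hG hpos hφ x
    exact ⟨⟨K, hK⟩, hx⟩
  · intro x y hxy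
    constructor
    · intro hadj
      obtain ⟨K, hK, hx, hy⟩ := edge_strong hG hpos hφ hadj
      exact ⟨⟨K, hK⟩, hx, hy⟩
    · rintro ⟨K, hx, hy⟩
      exact K.2.1 hx hy hxy
  · intro S hS K
    obtain ⟨v, hvK, hvS⟩ := K.2.2 S hS
    refine ⟨v, ⟨hvS, hvK⟩, ?_⟩
    rintro u ⟨huS, huK⟩
    by_contra huv
    exact hS.prop huS hvS huv (K.2.1 huK hvK huv)

end Pool.Agent.Results.MP_ee7763_co.PerfectOrlin
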